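import Mathlib
import Pool.Agent.Q290.Eblup.Fin

/-!
# The `g₃` term of the EBLUP MSPE in the balanced crossed random effects model

With the definitions of `Pool.Agent.Q290.Eblup.Defs` (design matrix, `V`, BLUP, Gaussian REML
log-likelihood, `h = ∂ζ̃/∂θ`, `b = ∂l/∂θ`, `A = E ∂²l/∂θ∂θ'`, `g₃ = E (h' A⁻¹ b)²`) we prove
that `0 ≤ g₃ ≤ K / m_*²` uniformly in `m₁, m₂ ≥ 2` and in bounded coefficients, and hence answer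
the question: a function `s` of `(θ, κ; m₁, m₂, a₀, a₁, a₂)` with `g₃ = s + o(m_*⁻¹)` exists.
-/

open MeasureTheory Filter Topology Q290.Eblup

namespace Pool.Agent.Results.MP_ca614b_pr.GThreeNegligible

theorem result :
    (∀ (F : Fin 3 → Measure ℝ) (θ κ : Fin 3 → ℝ), Admissible F θ κ → ∀ C : ℝ, ∃ K : ℝ,
      ∀ (μ : ℝ) (m₁ m₂ : ℕ), 2 ≤ m₁ → 2 ≤ m₂ →
      ∀ (a₀ : ℝ) (a₁ : Fin m₁ → ℝ) (a₂ : Fin m₂ → ℝ),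
        |a₀| + √(∑ i, a₁ i ^ 2) + √(∑ j, a₂ j ^ 2) ≤ C →
        0 ≤ g3 F μ θ a₀ a₁ a₂ ∧ g3 F μ θ a₀ a₁ a₂ ≤ K / (min (m₁ : ℝ) m₂) ^ 2) ∧
    (∃ s : (Fin 3 → ℝ) → (Fin 3 → ℝ) → ∀ m₁ m₂ : ℕ, ℝ → (Fin m₁ → ℝ) → (Fin m₂ → ℝ) → ℝ,
      ∀ (F : Fin 3 → Measure ℝ) (θ κ : Fin 3 → ℝ), Admissible F θ κ →
      ∀ (μ C : ℝ) (m₁ m₂ : ℕ → ℕ) (a₀ : ℕ → ℝ) (a₁ : ∀ n, Fin (m₁ n) → ℝ)
        (a₂ : ∀ n, Fin (m₂ n) → ℝ),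
        (∀ n, |a₀ n| + √(∑ i, a₁ n i ^ 2) + √(∑ j, a₂ n j ^ 2) ≤ C) →
        Tendsto (fun n => min (m₁ n) (m₂ n)) atTop atTop →
        Tendsto (fun n => (min (m₁ n) (m₂ n) : ℕ) *
          |g3 F μ θ (a₀ n) (a₁ n) (a₂ n) - s θ κ (m₁ n) (m₂ n) (a₀ n) (a₁ n) (a₂ n)|)
          atTop (𝓝 (0 : ℝ))) := by
  have part1 : ∀ (F : Fin 3 → Measure ℝ) (θ κ : Fin 3 → ℝ), Admissible F θ κ → ∀ C : ℝ, ∃ K : ℝ,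
      ∀ (μ : ℝ) (m₁ m₂ : ℕ), 2 ≤ m₁ → 2 ≤ m₂ →
      ∀ (a₀ : ℝ) (a₁ : Fin m₁ → ℝ) (a₂ : Fin m₂ → ℝ),
        |a₀| + √(∑ i, a₁ i ^ 2) + √(∑ j, a₂ j ^ 2) ≤ C →
        0 ≤ g3 F μ θ a₀ a₁ a₂ ∧ g3 F μ θ a₀ a₁ a₂ ≤ K / (min (m₁ : ℝ) m₂) ^ 2 := by
    intro F θ κ hF C
    refine ⟨2 * BB F θ κ C, fun μ m₁ m₂ h₁ h₂ a₀ a₁ a₂ hC => ⟨g3_nonneg F μ θ a₀ a₁ a₂, ?_⟩⟩
    have b0 := abs_nonneg a₀
    have b1 := Real.sqrt_nonneg (∑ i, a₁ i ^ 2)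
    have b2 := Real.sqrt_nonneg (∑ j, a₂ j ^ 2)
    have s1 : ∑ i, a₁ i ^ 2 ≤ C ^ 2 := by
      have h : √(∑ i, a₁ i ^ 2) ≤ C := by linarith
      calc ∑ i, a₁ i ^ 2 = √(∑ i, a₁ i ^ 2) ^ 2 :=
            (Real.sq_sqrt (Finset.sum_nonneg fun i _ => by positivity)).symm
        _ ≤ C ^ 2 := pow_le_pow_left₀ b1 h 2
    have s2 : ∑ j, a₂ j ^ 2 ≤ C ^ 2 := by
      have h : √(∑ j, a₂ j ^ 2) ≤ C := by linarith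
      calc ∑ j, a₂ j ^ 2 = √(∑ j, a₂ j ^ 2) ^ 2 :=
            (Real.sq_sqrt (Finset.sum_nonneg fun i _ => by positivity)).symm
        _ ≤ C ^ 2 := pow_le_pow_left₀ b2 h 2
    have := g3_le hF μ h₁ h₂ a₀ a₁ a₂ s1 s2
    calc g3 F μ θ a₀ a₁ a₂ ≤ 2 / (min (m₁ : ℝ) m₂) ^ 2 * BB F θ κ C := this
      _ = 2 * BB F θ κ C / (min (m₁ : ℝ) m₂) ^ 2 := by ring
  refine ⟨part1, fun _ _ _ _ _ _ _ => 0, ?_⟩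
  intro F θ κ hF μ C m₁ m₂ a₀ a₁ a₂ hC hm
  obtain ⟨K, hK⟩ := part1 F θ κ hF C
  simp only [sub_zero]
  have hlim : Tendsto (fun n => K / ((min (m₁ n) (m₂ n) : ℕ) : ℝ)) atTop (𝓝 0) :=
    Tendsto.div_atTop tendsto_const_nhds (tendsto_natCast_atTop_atTop.comp hm)
  have hev : ∀ᶠ n in atTop, 2 ≤ min (m₁ n) (m₂ n) := hm.eventually_ge_atTop 2
  refine tendsto_of_tendsto_of_tendsto_of_le_of_le' tendsto_const_nhds hlim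
    (Eventually.of_forall fun n => by positivity) ?_
  filter_upwards [hev] with n hn
  have h₁ : 2 ≤ m₁ n := le_trans hn (min_le_left _ _)
  have h₂ : 2 ≤ m₂ n := le_trans hn (min_le_right _ _)
  obtain ⟨p0, p1⟩ := hK μ (m₁ n) (m₂ n) h₁ h₂ (a₀ n) (a₁ n) (a₂ n) (hC n)
  rw [abs_of_nonneg p0]
  have hcast : ((min (m₁ n) (m₂ n) : ℕ) : ℝ) = min (m₁ n : ℝ) (m₂ n) := by push_cast; rfl
  have hpos : (0 : ℝ) < ((min (m₁ n) (m₂ n) : ℕ) : ℝ) := by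
    have : 0 < min (m₁ n) (m₂ n) := by omega
    exact_mod_cast this
  rw [← hcast] at p1
  calc ((min (m₁ n) (m₂ n) : ℕ) : ℝ) * g3 F μ θ (a₀ n) (a₁ n) (a₂ n)
      ≤ ((min (m₁ n) (m₂ n) : ℕ) : ℝ) * (K / ((min (m₁ n) (m₂ n) : ℕ) : ℝ) ^ 2) :=
        mul_le_mul_of_nonneg_left p1 hpos.le
    _ = K / ((min (m₁ n) (m₂ n) : ℕ) : ℝ) := by field_simp

end Pool.Agent.Results.MP_ca614b_pr.GThreeNegligible
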